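import Mathlib

set_option autoImplicit false

namespace Pool.Agent.Helper78.MultiCake

open Finset

/-- Averaging: some `k`-subset carries at least its share. -/
theorem exists_subset_share {ι : Type*} [DecidableEq ι] (w : ι → ℝ) (k : ℕ) :
    ∀ (d : ℕ) (L : Finset ι), L.card = k + d →
      ∃ T ⊆ L, T.card = k ∧ (k : ℝ) * ∑ l ∈ L, w l ≤ (L.card : ℝ) * ∑ l ∈ T, w l := by
  intro d
  induction d with
  | zero =>
    intro L hL
    exact ⟨L, Finset.Subset.refl _, by omega, by rw [hL]; simp⟩
  | succ d ih =>
    intro L hL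
    have hne : L.Nonempty := by
      rw [← Finset.card_pos]; omega
    obtain ⟨x, hxL, hx⟩ := Finset.exists_min_image L w hne
    obtain ⟨T, hT, hTc, hTs⟩ := ih (L.erase x) (by rw [Finset.card_erase_of_mem hxL]; omega)
    refine ⟨T, hT.trans (Finset.erase_subset _ _), hTc, ?_⟩
    rcases Nat.eq_zero_or_pos (k + d) with h0 | hpos
    · have hk : k = 0 := by omega
      subst hk
      have : T = ∅ := Finset.card_eq_zero.1 hTc
      subst this
      simp
    · have hcard : ((L.erase x).card : ℝ) = (k + d : ℕ) := by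
        rw [Finset.card_erase_of_mem hxL]; congr 1; omega
      have hLc : (L.card : ℝ) = (k + d : ℕ) + 1 := by rw [hL]; push_cast; ring
      have hsum : ∑ l ∈ L, w l = w x + ∑ l ∈ L.erase x, w l := (Finset.add_sum_erase L w hxL).symm
      have hmin : (L.card : ℝ) * w x ≤ ∑ l ∈ L, w l := by
        have := Finset.card_nsmul_le_sum L w (w x) (fun y hy => hx y hy)
        simpa [nsmul_eq_mul] using this
      have hq : (0 : ℝ) < ((k + d : ℕ) : ℝ) := by exact_mod_cast hpos
      rw [hcard] at hTs
      set q : ℝ := ((k + d : ℕ) : ℝ) with hqdef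
      set SL := ∑ l ∈ L, w l
      set SE := ∑ l ∈ L.erase x, w l
      set ST := ∑ l ∈ T, w l
      rw [hLc] at hmin ⊢
      have hk0 : (0 : ℝ) ≤ k := Nat.cast_nonneg k
      -- q * SL ≤ (q+1) * SE
      have h1 : q * SL ≤ (q + 1) * SE := by nlinarith
      have h2 : q * ((k : ℝ) * SL) ≤ q * ((q + 1) * ST) := by
        calc q * ((k : ℝ) * SL) = (k : ℝ) * (q * SL) := by ring
          _ ≤ (k : ℝ) * ((q + 1) * SE) := mul_le_mul_of_nonneg_left h1 hk0
          _ = (q + 1) * ((k : ℝ) * SE) := by ring
          _ ≤ (q + 1) * (q * ST) := mul_le_mul_of_nonneg_left hTs (by linarith)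
          _ = q * ((q + 1) * ST) := by ring
      exact le_of_mul_le_mul_left h2 hq

/-- Disjoint subsets of prescribed sizes. -/
theorem exists_disjoint_family {τ ι : Type*} [DecidableEq τ] [DecidableEq ι] (f : τ → ℕ)
    (T : Finset τ) : ∀ L : Finset ι, ∑ t ∈ T, f t ≤ L.card →
      ∃ P : τ → Finset ι, (∀ t ∈ T, P t ⊆ L ∧ (P t).card = f t) ∧
        ∀ t ∈ T, ∀ t' ∈ T, t ≠ t' → Disjoint (P t) (P t') := by
  induction T using Finset.induction_on with
  | empty => intro L _; exact ⟨fun _ => ∅, by simp, by simp⟩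
  | insert a T ha ih =>
    intro L hL
    rw [Finset.sum_insert ha] at hL
    obtain ⟨B, hBL, hBc⟩ := Finset.exists_subset_card_eq (s := L) (n := f a) (by omega)
    obtain ⟨P, hP1, hP2⟩ := ih (L \ B) (by rw [Finset.card_sdiff_of_subset hBL]; omega)
    refine ⟨fun t => if t = a then B else P t, ?_, ?_⟩
    · intro t ht
      by_cases hta : t = a
      · subst hta; simp [hBL, hBc]
      · have htT : t ∈ T := (Finset.mem_insert.1 ht).resolve_left hta
        simp only [if_neg hta]
        exact ⟨(hP1 t htT).1.trans Finset.sdiff_subset, (hP1 t htT).2⟩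
    · intro t ht t' ht' hne
      by_cases hta : t = a
      · have hta' : t' ≠ a := fun h => hne (hta.trans h.symm)
        have htT' : t' ∈ T := (Finset.mem_insert.1 ht').resolve_left hta'
        simp only [if_pos hta, if_neg hta']
        exact (Finset.disjoint_sdiff.mono_right (hP1 t' htT').1)
      · have htT : t ∈ T := (Finset.mem_insert.1 ht).resolve_left hta
        by_cases hta' : t' = a
        · simp only [if_pos hta', if_neg hta]
          exact (Finset.disjoint_sdiff.mono_right (hP1 t htT).1).symm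
        · have htT' : t' ∈ T := (Finset.mem_insert.1 ht').resolve_left hta'
          simp only [if_neg hta, if_neg hta']
          exact hP2 t htT t' htT' hne

/-- Envy-free matching: if every block is acceptable to some agent and there are at least as many
blocks as agents, some nonempty family of blocks can be matched to agents who accept them so that
no other agent accepts any block of the family. -/
theorem envy_free_matching {J τ : Type*} [DecidableEq J] [DecidableEq τ] (A : Finset J)
    (T : Finset τ) (adj : τ → J → Prop) (hcard : A.card ≤ T.card) (hT : T.Nonempty)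
    (hne : ∀ t ∈ T, ∃ j ∈ A, adj t j) :
    ∃ (S : Finset τ) (f : τ → J), S ⊆ T ∧ S.Nonempty ∧ (∀ t ∈ S, f t ∈ A ∧ adj t (f t)) ∧
      (∀ t ∈ S, ∀ t' ∈ S, f t = f t' → t = t') ∧
      ∀ j ∈ A, j ∉ S.image f → ∀ t ∈ S, ¬ adj t j := by
  classical
  let nb : Finset τ → Finset J := fun S => A.filter (fun j => ∃ t ∈ S, adj t j)
  have hnbmono : ∀ S S' : Finset τ, S ⊆ S' → nb S ⊆ nb S' := by
    intro S S' h j hj
    simp only [nb, Finset.mem_filter] at hj ⊢
    obtain ⟨hjA, t, ht, hadj⟩ := hj
    exact ⟨hjA, t, h ht, hadj⟩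
  -- a minimal deficient family
  have hex : ∃ S : Finset τ, (S ⊆ T ∧ S.Nonempty ∧ (nb S).card ≤ S.card) ∧
      ∀ S' : Finset τ, (S' ⊆ T ∧ S'.Nonempty ∧ (nb S').card ≤ S'.card) → S.card ≤ S'.card := by
    have h0 : (T.powerset.filter (fun S => S.Nonempty ∧ (nb S).card ≤ S.card)).Nonempty := by
      refine ⟨T, ?_⟩
      rw [Finset.mem_filter, Finset.mem_powerset]
      exact ⟨Finset.Subset.refl _, hT, (Finset.card_le_card (Finset.filter_subset _ _)).trans hcard⟩
    obtain ⟨S, hS, hSmin⟩ := Finset.exists_min_image _ (fun S => S.card) h0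
    rw [Finset.mem_filter, Finset.mem_powerset] at hS
    refine ⟨S, hS, ?_⟩
    intro S' hS'
    exact hSmin S' (by rw [Finset.mem_filter, Finset.mem_powerset]; exact hS')
  obtain ⟨S, ⟨hST, hSne, hSdef⟩, hSmin⟩ := hex
  have hall : ∀ X : Finset τ, X ⊆ S → X.card ≤ (nb X).card := by
    have hproper : ∀ X : Finset τ, X ⊆ S → X ≠ S → X.Nonempty → X.card + 1 ≤ (nb X).card := by
      intro X hXS hXne hXn
      by_contra hcon
      have h1 : (nb X).card ≤ X.card := by omega
      have h2 := hSmin X ⟨hXS.trans hST, hXn, h1⟩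
      exact hXne (Finset.eq_of_subset_of_card_le hXS h2)
    intro X hXS
    rcases X.eq_empty_or_nonempty with rfl | hXn
    · simp
    by_cases hXeq : X = S
    · subst hXeq
      obtain ⟨t0, ht0⟩ := hXn
      by_cases h1 : (X.erase t0).Nonempty
      · have h2 := hproper (X.erase t0) (Finset.erase_subset _ _)
          (by intro h; rw [← h] at ht0; exact Finset.notMem_erase _ _ ht0) h1
        rw [Finset.card_erase_of_mem ht0] at h2
        have h3 := Finset.card_le_card (hnbmono _ _ (Finset.erase_subset t0 X))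
        have h4 : 0 < X.card := Finset.card_pos.2 ⟨t0, ht0⟩
        omega
      · rw [Finset.not_nonempty_iff_eq_empty] at h1
        have h2 : X.card = 1 := by
          have := Finset.card_erase_of_mem ht0
          rw [h1, Finset.card_empty] at this
          have h4 : 0 < X.card := Finset.card_pos.2 ⟨t0, ht0⟩
          omega
        obtain ⟨j, hjA, hadj⟩ := hne t0 (hXS.trans hST ht0)
        have h3 : 0 < (nb X).card := Finset.card_pos.2
          ⟨j, by simp only [nb, Finset.mem_filter]; exact ⟨hjA, t0, ht0, hadj⟩⟩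
        omega
    · have := hproper X hXS hXeq hXn
      omega
  -- Hall
  have hH : ∃ g : {x // x ∈ S} → J, Function.Injective g ∧ ∀ x, g x ∈ nb {x.1} := by
    rw [← Finset.all_card_le_biUnion_card_iff_exists_injective (fun x : {x // x ∈ S} => nb {x.1})]
    intro X
    have h1 := hall (X.map (Function.Embedding.subtype _)) (by
      intro y hy
      rw [Finset.mem_map] at hy
      obtain ⟨z, _, rfl⟩ := hy
      exact z.2)
    rw [Finset.card_map] at h1
    refine h1.trans (Finset.card_le_card ?_)
    intro j hj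
    simp only [nb, Finset.mem_filter] at hj
    obtain ⟨hjA, t, ht, hadj⟩ := hj
    rw [Finset.mem_map] at ht
    obtain ⟨z, hz, rfl⟩ := ht
    rw [Finset.mem_biUnion]
    refine ⟨z, hz, ?_⟩
    simp only [nb, Finset.mem_filter]
    exact ⟨hjA, z.1, Finset.mem_singleton_self _, hadj⟩
  obtain ⟨g, hginj, hg⟩ := hH
  have hJ : Nonempty J := by
    obtain ⟨t, ht⟩ := hSne
    obtain ⟨j, -, -⟩ := hne t (hST ht)
    exact ⟨j⟩
  let f : τ → J := fun t => if h : t ∈ S then g ⟨t, h⟩ else hJ.some
  have hf : ∀ t (h : t ∈ S), f t = g ⟨t, h⟩ := fun t h => by simp only [f, dif_pos h]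
  have hfprop : ∀ t ∈ S, f t ∈ A ∧ adj t (f t) := by
    intro t ht
    rw [hf t ht]
    have := hg ⟨t, ht⟩
    simp only [nb, Finset.mem_filter, Finset.mem_singleton, exists_eq_left] at this
    exact this
  have hfinj : ∀ t ∈ S, ∀ t' ∈ S, f t = f t' → t = t' := by
    intro t ht t' ht' h
    rw [hf t ht, hf t' ht'] at h
    exact congrArg Subtype.val (hginj h)
  refine ⟨S, f, hST, hSne, hfprop, hfinj, ?_⟩
  intro j hjA hj t ht hadj
  have himg : S.image f = nb S := by
    apply Finset.eq_of_subset_of_card_le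
    · intro x hx
      obtain ⟨u, hu, rfl⟩ := Finset.mem_image.1 hx
      simp only [nb, Finset.mem_filter]
      exact ⟨(hfprop u hu).1, u, hu, (hfprop u hu).2⟩
    · rw [Finset.card_image_of_injOn (fun a ha b hb h => hfinj a ha b hb h)]
      exact hSdef
  apply hj
  rw [himg]
  simp only [nb, Finset.mem_filter]
  exact ⟨hjA, t, ht, hadj⟩

/-- Exchange: from a light set of `k` islands and a heavy set of `k+1` islands to a light set one
island away from a heavy one. -/
theorem exists_tight_pair {J ι : Type*} [DecidableEq ι] (A : Finset J) (w : J → ι → ℝ)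
    (hw : ∀ j l, 0 ≤ w j l) (θ : J → ℝ) (L : Finset ι) (k : ℕ) (W : Finset ι) (hWL : W ⊆ L)
    (hWc : W.card = k + 1) (hWheavy : ∃ i ∈ A, θ i ≤ ∑ l ∈ W, w i l) :
    ∀ (N : ℕ) (Y : Finset ι), (Y \ W).card ≤ N → Y ⊆ L → Y.card = k →
      (∀ j ∈ A, ∑ l ∈ Y, w j l ≤ θ j) →
      ∃ Y' ⊆ L, Y'.card = k ∧ ∃ l ∈ L, l ∉ Y' ∧ (∀ j ∈ A, ∑ l ∈ Y', w j l ≤ θ j) ∧
        ∃ i ∈ A, θ i ≤ ∑ x ∈ insert l Y', w i x := by
  intro N
  induction N with
  | zero =>
    intro Y hY hYL hYc hlight
    have hsub : Y ⊆ W := by
      rw [← Finset.sdiff_eq_empty_iff_subset, ← Finset.card_eq_zero]; omega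
    have hne : (W \ Y).Nonempty := by
      rw [← Finset.card_pos, Finset.card_sdiff_of_subset hsub]; omega
    obtain ⟨l, hl⟩ := hne
    rw [Finset.mem_sdiff] at hl
    refine ⟨Y, hYL, hYc, l, hWL hl.1, hl.2, hlight, ?_⟩
    have : insert l Y = W := by
      apply Finset.eq_of_subset_of_card_le
      · exact Finset.insert_subset hl.1 hsub
      · rw [Finset.card_insert_of_notMem hl.2]; omega
    rw [this]
    exact hWheavy
  | succ N ih =>
    intro Y hY hYL hYc hlight
    by_cases hsub : Y ⊆ W
    · exact ih Y (by rw [Finset.sdiff_eq_empty_iff_subset.2 hsub]; simp) hYL hYc hlight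
    · obtain ⟨y, hyY, hyW⟩ := Finset.not_subset.1 hsub
      have hne : (W \ Y).Nonempty := by
        rw [Finset.nonempty_iff_ne_empty]
        intro h
        have := Finset.card_le_card (Finset.sdiff_eq_empty_iff_subset.1 h)
        omega
      obtain ⟨u, hu⟩ := hne
      rw [Finset.mem_sdiff] at hu
      by_cases hheavy : ∃ i ∈ A, θ i ≤ ∑ x ∈ insert u Y, w i x
      · exact ⟨Y, hYL, hYc, u, hWL hu.1, hu.2, hlight, hheavy⟩
      · push Not at hheavy
        have hyu : y ≠ u := fun h => hu.2 (h ▸ hyY)
        refine ih ((insert u Y).erase y) ?_ ?_ ?_ ?_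
        · have h1 : (insert u Y).erase y \ W ⊆ (Y \ W).erase y := by
            intro z hz
            rw [Finset.mem_sdiff, Finset.mem_erase, Finset.mem_insert] at hz
            rw [Finset.mem_erase, Finset.mem_sdiff]
            refine ⟨hz.1.1, ?_, hz.2⟩
            rcases hz.1.2 with h | h
            · exact absurd (h ▸ hu.1) hz.2
            · exact h
          have h2 := Finset.card_le_card h1
          rw [Finset.card_erase_of_mem (Finset.mem_sdiff.2 ⟨hyY, hyW⟩)] at h2
          omega
        · exact (Finset.erase_subset _ _).trans (Finset.insert_subset (hWL hu.1) hYL)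
        · rw [Finset.card_erase_of_mem (Finset.mem_insert_of_mem hyY),
            Finset.card_insert_of_notMem hu.2]
          omega
        · intro j hj
          refine (Finset.sum_le_sum_of_subset_of_nonneg (Finset.erase_subset _ _)
            (fun x _ _ => hw j x)).trans (hheavy j hj).le

end Pool.Agent.Helper78.MultiCake
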