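import Pool.Agent.Helper78.MultiCake.Feas

set_option autoImplicit false

namespace Pool.Agent.Helper78.MultiCake

open Finset

/-- The induction statement for `n` agents. -/
def Q (J : Type) [DecidableEq J] (n : ℕ) : Prop :=
  ∀ (ι : Type) [DecidableEq ι] (G : J → ι → ℝ → ℝ) (e s : ι → ℝ) (A : Finset J) (L : Finset ι)
    (K : ℕ) (κ : J → ℕ) (θ : J → ℝ),
    (∀ j l, Monotone (G j l)) → (∀ j l, Continuous (G j l)) → (∀ l, s l ≤ e l) →
    A.card = n → (∀ j ∈ A, 0 ≤ θ j) → 1 ≤ K → n * K + 1 ≤ L.card + n →
    L.card + n ≤ n * (K + 1) + 1 →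
    (∀ j ∈ A, (K ≤ κ j ∧ ((L.card : ℝ) + n - 1) * θ j ≤ K * ∑ l ∈ L, wt G e s j l) ∨
      (K + 1 ≤ κ j ∧ (n : ℝ) * θ j ≤ ∑ l ∈ L, wt G e s j l)) →
    Feas G e A L s κ θ

theorem wt_nonneg {J ι : Type} {G : J → ι → ℝ → ℝ} {e s : ι → ℝ}
    (hmono : ∀ j l, Monotone (G j l)) (hs : ∀ l, s l ≤ e l) (j : J) (l : ι) :
    0 ≤ wt G e s j l := by
  have := hmono j l (hs l)
  unfold wt
  linarith

/-- Moving knife. -/
theorem exists_knife {J ι : Type} [DecidableEq ι] {G : J → ι → ℝ → ℝ} {e s : ι → ℝ}
    (hcont : ∀ j l, Continuous (G j l)) (hs : ∀ l, s l ≤ e l) (A : Finset J) (hA : A.Nonempty)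
    (θ : J → ℝ) (Y : Finset ι) (l : ι) (hlY : l ∉ Y)
    (h0 : ∀ j ∈ A, ∑ u ∈ Y, wt G e s j u ≤ θ j)
    (h1 : ∃ i ∈ A, θ i ≤ ∑ u ∈ insert l Y, wt G e s i u) :
    ∃ x, s l ≤ x ∧ x ≤ e l ∧
      (∀ j ∈ A, ∑ u ∈ Y, wt G e s j u + (G j l x - G j l (s l)) ≤ θ j) ∧
      ∃ i ∈ A, θ i ≤ ∑ u ∈ Y, wt G e s i u + (G i l x - G i l (s l)) := by
  let f : J → ℝ → ℝ := fun j x => ∑ u ∈ Y, wt G e s j u + (G j l x - G j l (s l)) - θ j
  let h : ℝ → ℝ := fun x => A.sup' hA (fun j => f j x)
  have hcf : ∀ j, Continuous (f j) := by
    intro j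
    exact ((continuous_const.add ((hcont j l).sub continuous_const)).sub continuous_const)
  have hh : Continuous h := Continuous.finset_sup'_apply hA (fun j _ => hcf j)
  have ha : h (s l) ≤ 0 := by
    apply Finset.sup'_le
    intro j hj
    have := h0 j hj
    simp only [f]
    linarith
  have hb : 0 ≤ h (e l) := by
    obtain ⟨i, hi, hival⟩ := h1
    refine le_trans ?_ (Finset.le_sup' (fun j => f j (e l)) hi)
    rw [Finset.sum_insert hlY] at hival
    simp only [f]
    unfold wt at hival ⊢
    linarith
  obtain ⟨x, hx, hx0⟩ := intermediate_value_Icc (hs l) hh.continuousOn ⟨ha, hb⟩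
  refine ⟨x, hx.1, hx.2, ?_, ?_⟩
  · intro j hj
    have h2 : f j x ≤ h x := Finset.le_sup' (fun j => f j x) hj
    rw [hx0] at h2
    simp only [f] at h2
    linarith
  · obtain ⟨i, hi, hieq⟩ := Finset.exists_mem_eq_sup' hA (fun j => f j x)
    refine ⟨i, hi, ?_⟩
    have h2 : h x = f i x := hieq
    rw [hx0] at h2
    simp only [f] at h2
    linarith

theorem core {J : Type} [DecidableEq J] (n : ℕ) (IH : ∀ n' < n, Q J n') (ι : Type)
    [DecidableEq ι] (G : J → ι → ℝ → ℝ) (e s : ι → ℝ) (A : Finset J) (L : Finset ι)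
    (k c : ℕ) (κ : J → ℕ) (θ : J → ℝ)
    (hmono : ∀ j l, Monotone (G j l)) (hcont : ∀ j l, Continuous (G j l)) (hs : ∀ l, s l ≤ e l)
    (hA : A.card = n) (hθ : ∀ j ∈ A, 0 ≤ θ j) (hc : L.card + n = n * (k + 1) + 1 + c)
    (hcn : c + 1 ≤ n)
    (htype : ∀ j ∈ A, (k + 1 ≤ κ j ∧
      ((L.card : ℝ) + n - 1) * θ j ≤ ((k : ℝ) + 1) * ∑ l ∈ L, wt G e s j l) ∨
      (k + 1 + 1 ≤ κ j ∧ (n : ℝ) * θ j ≤ ∑ l ∈ L, wt G e s j l))
    (hex : ∃ i ∈ A, ((L.card : ℝ) + n - 1) * θ i ≤ ((k : ℝ) + 1) * ∑ l ∈ L, wt G e s i l) :
    Feas G e A L s κ θ := by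
  classical
  have hn : 1 ≤ n := by omega
  have hm : L.card = n * k + 1 + c := by
    have : n * (k + 1) = n * k + n := by ring
    omega
  have hwt := fun j l => wt_nonneg (G := G) (e := e) (s := s) hmono hs j l
  have hAne : A.Nonempty := by rw [← Finset.card_pos]; omega
  have hκ : ∀ j ∈ A, k + 1 ≤ κ j := by
    intro j hj
    rcases htype j hj with h | h
    · exact h.1
    · omega
  have hmR : (L.card : ℝ) = n * k + 1 + c := by rw [hm]; push_cast; ring
  have hcR : ((c : ℝ)) + 1 ≤ n := by exact_mod_cast hcn
  have hc0 : (0 : ℝ) ≤ c := Nat.cast_nonneg c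
  have hk0 : (0 : ℝ) ≤ k := Nat.cast_nonneg k
  have hn1 : (1 : ℝ) ≤ n := by exact_mod_cast hn
  by_cases hlight : ∃ Y0 ⊆ L, Y0.card = k ∧ ∀ j ∈ A, ∑ l ∈ Y0, wt G e s j l ≤ θ j
  · -- light case
    obtain ⟨Y0, hY0L, hY0c, hY0⟩ := hlight
    obtain ⟨i0, hi0, hi0val⟩ := hex
    have hkm : k + 1 ≤ L.card := by
      have : 1 * k ≤ n * k := Nat.mul_le_mul_right k hn
      omega
    obtain ⟨W, hWL, hWc, hWs⟩ := exists_subset_share (fun l => wt G e s i0 l) (k + 1)
      (L.card - (k + 1)) L (by omega)
    have hWheavy : θ i0 ≤ ∑ l ∈ W, wt G e s i0 l := by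
      have hLpos : (0 : ℝ) < L.card := by
        have : 0 < L.card := by omega
        exact_mod_cast this
      have h1 : (L.card : ℝ) * θ i0 ≤ L.card * ∑ l ∈ W, wt G e s i0 l := by
        have h2 : (L.card : ℝ) * θ i0 ≤ ((L.card : ℝ) + n - 1) * θ i0 := by
          apply mul_le_mul_of_nonneg_right _ (hθ i0 hi0)
          linarith
        push_cast at hWs
        linarith
      exact le_of_mul_le_mul_left h1 hLpos
    obtain ⟨Y, hYL, hYc, l, hlL, hlY, hYlight, hYheavy⟩ := exists_tight_pair A (wt G e s) hwt θ L k
      W hWL hWc ⟨i0, hi0, hWheavy⟩ (Y0 \ W).card Y0 le_rfl hY0L hY0c hY0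
    obtain ⟨x, hx1, hx2, hxlight, i, hi, hival⟩ := exists_knife hcont hs A hAne θ Y l hlY hYlight
      hYheavy
    -- remaining problem
    set s' : ι → ℝ := Function.update s l x with hs'
    have hs'e : ∀ u, s' u ≤ e u := by
      intro u
      by_cases hul : u = l
      · subst hul; rw [hs', Function.update_self]; exact hx2
      · rw [hs', Function.update_of_ne hul]; exact hs u
    have hlL' : l ∈ L \ Y := Finset.mem_sdiff.2 ⟨hlL, hlY⟩
    have hV' : ∀ j, ∑ u ∈ L \ Y, wt G e s' j u =
        ∑ u ∈ L, wt G e s j u - (∑ u ∈ Y, wt G e s j u + (G j l x - G j l (s l))) := by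
      intro j
      have h1 : ∑ u ∈ L, wt G e s j u = ∑ u ∈ L \ Y, wt G e s j u + ∑ u ∈ Y, wt G e s j u :=
        (Finset.sum_sdiff hYL).symm
      have h2 : ∑ u ∈ L \ Y, wt G e s j u = wt G e s j l + ∑ u ∈ (L \ Y).erase l, wt G e s j u :=
        (Finset.add_sum_erase _ _ hlL').symm
      have h3 : ∑ u ∈ L \ Y, wt G e s' j u = wt G e s' j l + ∑ u ∈ (L \ Y).erase l, wt G e s' j u :=
        (Finset.add_sum_erase _ _ hlL').symm
      have h4 : ∑ u ∈ (L \ Y).erase l, wt G e s' j u = ∑ u ∈ (L \ Y).erase l, wt G e s j u := by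
        apply Finset.sum_congr rfl
        intro u hu
        have hul : u ≠ l := (Finset.mem_erase.1 hu).1
        simp only [wt, hs', Function.update_of_ne hul]
      have h5 : wt G e s' j l = wt G e s j l - (G j l x - G j l (s l)) := by
        simp only [wt, hs', Function.update_self]
        ring
      rw [h1, h2, h3, h4, h5]
      ring
    have hcard' : (L \ Y).card = L.card - k := by rw [Finset.card_sdiff_of_subset hYL, hYc]
    have hkL : k ≤ L.card := by omega
    have hcardR : ((L \ Y).card : ℝ) = L.card - k := by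
      rw [hcard', Nat.cast_sub hkL]
    have hn' : ((n - 1 : ℕ) : ℝ) = n - 1 := by
      rw [Nat.cast_sub hn]; simp
    have hfeas : Feas G e (A.erase i) (L \ Y) s' κ θ := by
      apply IH (n - 1) (by omega) ι G e s' (A.erase i) (L \ Y) (k + 1) κ θ hmono hcont hs'e
      · rw [Finset.card_erase_of_mem hi, hA]
      · intro j hj; exact hθ j (Finset.mem_of_mem_erase hj)
      · omega
      · obtain ⟨n', rfl⟩ : ∃ n', n = n' + 1 := ⟨n - 1, by omega⟩
        have h1 : (n' + 1) * (k + 1) = n' * (k + 1) + (k + 1) := by ring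
        have h2 : (n' + 1 - 1) = n' := by omega
        rw [h2, hcard']
        rw [h1] at hc
        omega
      · obtain ⟨n', rfl⟩ : ∃ n', n = n' + 1 := ⟨n - 1, by omega⟩
        have h1 : (n' + 1) * (k + 1) = n' * (k + 1) + (k + 1) := by ring
        have h2 : (n' + 1 - 1) = n' := by omega
        have h3 : n' * (k + 1 + 1) = n' * (k + 1) + n' := by ring
        rw [h2, hcard', h3]
        rw [h1] at hc
        omega
      · intro j hj
        have hjA := Finset.mem_of_mem_erase hj
        have hl := hxlight j hjA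
        have hθj := hθ j hjA
        rcases htype j hjA with ⟨h1, h2⟩ | ⟨h1, h2⟩
        · left
          refine ⟨h1, ?_⟩
          rw [hV' j, hcardR, hn']
          push_cast
          have h3 : ((k : ℝ) + 1) * (∑ u ∈ Y, wt G e s j u + (G j l x - G j l (s l))) ≤
              ((k : ℝ) + 1) * θ j := mul_le_mul_of_nonneg_left hl (by linarith)
          nlinarith
        · right
          refine ⟨h1, ?_⟩
          rw [hV' j, hn']
          nlinarith
    have := feas_prefix (G := G) (e := e) (A := A.erase i) (L := L) (s := s) (κ := κ) (θ := θ) i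
      (Finset.notMem_erase i A) Y hYL l hlL hlY x hx1 hx2 hs (by rw [hYc]; exact hκ i hi) hival hfeas
    rwa [Finset.insert_erase hi] at this
  · -- heavy case
    push Not at hlight
    have hk1 : 1 ≤ k := by
      by_contra hk
      have hk' : k = 0 := by omega
      obtain ⟨j, hj, hlt⟩ := hlight ∅ (Finset.empty_subset _) (by simp [hk'])
      rw [Finset.sum_empty] at hlt
      exact absurd (hθ j hj) (not_le.2 hlt)
    let f : ℕ → ℕ := fun t => if t < c + 1 then k + 1 else k
    have hfsum : ∀ S ⊆ Finset.range n, ∑ t ∈ S, f t = S.card * k + (S.filter (fun t => t < c + 1)).card := by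
      intro S _
      have : ∀ t, f t = k + (if t < c + 1 then 1 else 0) := by
        intro t
        simp only [f]
        split_ifs <;> omega
      simp only [this, Finset.sum_add_distrib, Finset.sum_const, smul_eq_mul]
      rw [Finset.card_filter]
    have hfilt : ((Finset.range n).filter (fun t => t < c + 1)).card = c + 1 := by
      have : (Finset.range n).filter (fun t => t < c + 1) = Finset.range (c + 1) := by
        ext t
        simp only [Finset.mem_filter, Finset.mem_range]
        omega
      rw [this, Finset.card_range]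
    have hsumT : ∑ t ∈ Finset.range n, f t = L.card := by
      rw [hfsum _ (Finset.Subset.refl _), hfilt, Finset.card_range, hm]
      ring
    obtain ⟨P, hP1, hP2⟩ := exists_disjoint_family f (Finset.range n) L hsumT.le
    obtain ⟨S, g, hST, hSne, hSg, hginj, hSfree⟩ := envy_free_matching A (Finset.range n)
      (fun t j => θ j ≤ ∑ u ∈ P t, wt G e s j u) (by rw [hA, Finset.card_range])
      (by rw [Finset.nonempty_range_iff]; omega) (by
        intro t ht
        have hkc : k ≤ (P t).card := by
          rw [(hP1 t ht).2]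
          simp only [f]
          split_ifs <;> omega
        obtain ⟨Y, hYP, hYc⟩ := Finset.exists_subset_card_eq hkc
        obtain ⟨j, hj, hlt⟩ := hlight Y (hYP.trans (hP1 t ht).1) hYc
        refine ⟨j, hj, hlt.le.trans ?_⟩
        exact Finset.sum_le_sum_of_subset_of_nonneg hYP (fun u _ _ => hwt j u))
    set r := S.card with hr
    set q := (S.filter (fun t => t < c + 1)).card with hq
    have hrn : r ≤ n := by
      have := Finset.card_le_card hST
      rwa [Finset.card_range] at this
    have hr1 : 1 ≤ r := Finset.card_pos.2 hSne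
    have hqc : q ≤ c + 1 := by
      rw [← hfilt]
      exact Finset.card_le_card (Finset.filter_subset_filter _ hST)
    have hrq : r - q ≤ n - (c + 1) := by
      have h1 : (S.filter (fun t => ¬ t < c + 1)).card ≤
          ((Finset.range n).filter (fun t => ¬ t < c + 1)).card :=
        Finset.card_le_card (Finset.filter_subset_filter _ hST)
      have h2 := Finset.card_filter_add_card_filter_not (s := S) (fun t => t < c + 1)
      have h3 := Finset.card_filter_add_card_filter_not (s := Finset.range n) (fun t => t < c + 1)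
      rw [hfilt, Finset.card_range] at h3
      omega
    have hqr : q ≤ r := Finset.card_filter_le _ _
    have hcardB : (S.biUnion P).card = r * k + q := by
      rw [Finset.card_biUnion (fun t ht t' ht' hne => hP2 t (hST ht) t' (hST ht') hne)]
      rw [Finset.sum_congr rfl (fun t ht => (hP1 t (hST ht)).2), hfsum S hST]
    have hBL : S.biUnion P ⊆ L := by
      intro u hu
      obtain ⟨t, ht, hut⟩ := Finset.mem_biUnion.1 hu
      exact (hP1 t (hST ht)).1 hut
    have hcardA : (S.image g).card = r :=
      Finset.card_image_of_injOn (fun a ha b hb h => hginj a ha b hb h)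
    have hSA : S.image g ⊆ A := by
      intro j hj
      obtain ⟨t, ht, rfl⟩ := Finset.mem_image.1 hj
      exact (hSg t ht).1
    have hfeas1 : Feas G e (S.image g) (S.biUnion P) s κ θ := by
      apply feas_blocks S P g (fun t ht t' ht' hne => hP2 t (hST ht) t' (hST ht') hne) hginj hs
      · intro t ht
        rw [(hP1 t (hST ht)).2]
        refine le_trans ?_ (hκ _ (hSg t ht).1)
        simp only [f]
        split_ifs <;> omega
      · intro t ht
        exact (hSg t ht).2
    have hrest : Feas G e (A \ S.image g) (L \ S.biUnion P) s κ θ := by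
      by_cases hnr : r = n
      · have : A \ S.image g = ∅ := by
          rw [Finset.sdiff_eq_empty_iff_subset]
          exact (Finset.eq_of_subset_of_card_le hSA (by omega)).ge
        rw [this]
        exact feas_empty _ _ _ _ _ _
      · obtain ⟨n', hn'⟩ : ∃ n', n = r + n' := ⟨n - r, by omega⟩
        have hn'1 : 1 ≤ n' := by omega
        have hcardL' : (L \ S.biUnion P).card = L.card - (r * k + q) := by
          rw [Finset.card_sdiff_of_subset hBL, hcardB]
        have hBcard : r * k + q ≤ L.card := by
          rw [← hcardB]; exact Finset.card_le_card hBL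
        have hcardLR : ((L \ S.biUnion P).card : ℝ) = L.card - (r * k + q) := by
          rw [hcardL', Nat.cast_sub hBcard]; push_cast; ring
        have hcardA' : (A \ S.image g).card = n' := by
          rw [Finset.card_sdiff_of_subset hSA, hcardA, hA]; omega
        have hnR : (n : ℝ) = r + n' := by rw [hn']; push_cast; ring
        have hV' : ∀ j ∈ A \ S.image g, ∑ u ∈ L, wt G e s j u - r * θ j ≤
            ∑ u ∈ L \ S.biUnion P, wt G e s j u := by
          intro j hj
          rw [Finset.mem_sdiff] at hj
          have h1 : ∑ u ∈ L, wt G e s j u =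
              ∑ u ∈ L \ S.biUnion P, wt G e s j u + ∑ u ∈ S.biUnion P, wt G e s j u :=
            (Finset.sum_sdiff hBL).symm
          have h2 : ∑ u ∈ S.biUnion P, wt G e s j u = ∑ t ∈ S, ∑ u ∈ P t, wt G e s j u :=
            Finset.sum_biUnion (fun t ht t' ht' hne => hP2 t (hST ht) t' (hST ht') hne)
          have h3 : ∑ t ∈ S, ∑ u ∈ P t, wt G e s j u ≤ ∑ t ∈ S, θ j := by
            apply Finset.sum_le_sum
            intro t ht
            have := hSfree j hj.1 hj.2 t ht
            push Not at this
            exact this.le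
          rw [Finset.sum_const, nsmul_eq_mul] at h3
          rw [h1, h2]
          linarith
        have hθ' : ∀ j ∈ A \ S.image g, 0 ≤ θ j := fun j hj => hθ j (Finset.mem_sdiff.1 hj).1
        have hq0 : (0 : ℝ) ≤ q := Nat.cast_nonneg q
        have hr0 : (0 : ℝ) ≤ r := Nat.cast_nonneg r
        have hn'0 : (0 : ℝ) ≤ n' := Nat.cast_nonneg n'
        rcases Nat.lt_or_ge c q with hcq | hcq
        · -- all blocks of size `k + 1` are gone
          have hqeq : q = c + 1 := by omega
          obtain ⟨k', rfl⟩ : ∃ k', k = k' + 1 := ⟨k - 1, by omega⟩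
          have hL'n : (L \ S.biUnion P).card + n' = n' * (k' + 1 + 1) := by
            rw [hcardL', hm, hqeq, hn']
            have h1 : (r + n') * (k' + 1) = r * (k' + 1) + n' * (k' + 1) := by ring
            have h2 : n' * (k' + 1 + 1) = n' * (k' + 1) + n' := by ring
            omega
          apply IH n' (by omega) ι G e s _ _ (k' + 1) κ θ hmono hcont hs hcardA' hθ' (by omega)
          · rw [hL'n]
            have h2 : n' * (k' + 1 + 1) = n' * (k' + 1) + n' := by ring
            omega
          · rw [hL'n]; omega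
          · intro j hj
            have hjA := (Finset.mem_sdiff.1 hj).1
            have hθj := hθ' j hj
            right
            refine ⟨hκ j hjA, ?_⟩
            have hVj := hV' j hj
            have hnV : (n : ℝ) * θ j ≤ ∑ u ∈ L, wt G e s j u := by
              rcases htype j hjA with ⟨_, h2⟩ | ⟨_, h2⟩
              · have h3 : (((k' + 1 : ℕ) : ℝ) + 1) * ((n : ℝ) * θ j) ≤
                    (((k' + 1 : ℕ) : ℝ) + 1) * ∑ u ∈ L, wt G e s j u := by
                  refine le_trans ?_ h2
                  rw [hmR]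
                  push_cast
                  nlinarith
                refine le_of_mul_le_mul_left h3 ?_
                positivity
              · exact h2
            rw [hnR] at hnV
            linarith
        · -- some large blocks remain
          have hL'n : (L \ S.biUnion P).card + n' = n' * (k + 1) + 1 + (c - q) := by
            rw [hcardL', hm, hn']
            have h1 : (r + n') * k = r * k + n' * k := by ring
            have h2 : n' * (k + 1) = n' * k + n' := by ring
            omega
          apply IH n' (by omega) ι G e s _ _ (k + 1) κ θ hmono hcont hs hcardA' hθ' (by omega)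
          · rw [hL'n]; omega
          · rw [hL'n]
            have h2 : n' * (k + 1 + 1) = n' * (k + 1) + n' := by ring
            omega
          · intro j hj
            have hjA := (Finset.mem_sdiff.1 hj).1
            have hθj := hθ' j hj
            have hVj := hV' j hj
            rcases htype j hjA with ⟨h1, h2⟩ | ⟨h1, h2⟩
            · left
              refine ⟨h1, ?_⟩
              rw [hcardLR]
              have h3 : ((k : ℝ) + 1) * (∑ u ∈ L, wt G e s j u - r * θ j) ≤
                  ((k : ℝ) + 1) * ∑ u ∈ L \ S.biUnion P, wt G e s j u :=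
                mul_le_mul_of_nonneg_left hVj (by linarith)
              push_cast
              rw [hnR] at h2
              have h4 : 0 ≤ (q : ℝ) * θ j := mul_nonneg hq0 hθj
              nlinarith
            · right
              refine ⟨h1, ?_⟩
              rw [hnR] at h2
              linarith
    have hfin := feas_union hfeas1 hrest Finset.disjoint_sdiff hBL Finset.sdiff_subset
    rwa [Finset.union_sdiff_of_subset hSA] at hfin

end Pool.Agent.Helper78.MultiCake
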