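import Pool.Agent.Helper78.MultiCake.Basic

set_option autoImplicit false

namespace Pool.Agent.Helper78.MultiCake

open Finset

/-- `Feas G e A L s κ θ`: the agents of `A` can be given pairwise disjoint pieces of the cake with
islands `[s l, e l]`, `l ∈ L`; agent `j` gets at most `κ j` intervals (one on each island of a set
`S j`) of total value at least `θ j`, where agent `j` values the interval `[x, y]` of island `l` at
`G j l y - G j l x`. -/
def Feas {J ι : Type} (G : J → ι → ℝ → ℝ) (e : ι → ℝ) (A : Finset J) (L : Finset ι) (s : ι → ℝ)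
    (κ : J → ℕ) (θ : J → ℝ) : Prop :=
  ∃ (S : J → Finset ι) (lo hi : J → ι → ℝ),
    (∀ j ∈ A, S j ⊆ L ∧ (S j).card ≤ κ j ∧
      (∀ l ∈ S j, s l ≤ lo j l ∧ lo j l ≤ hi j l ∧ hi j l ≤ e l) ∧
      θ j ≤ ∑ l ∈ S j, (G j l (hi j l) - G j l (lo j l))) ∧
    ∀ j ∈ A, ∀ j' ∈ A, j ≠ j' → ∀ l, l ∈ S j → l ∈ S j' → hi j l ≤ lo j' l ∨ hi j' l ≤ lo j l

/-- The value of the whole remaining part of an island. -/
def wt {J ι : Type} (G : J → ι → ℝ → ℝ) (e s : ι → ℝ) (j : J) (l : ι) : ℝ :=
  G j l (e l) - G j l (s l)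

theorem feas_empty {J ι : Type} (G : J → ι → ℝ → ℝ) (e : ι → ℝ) (L : Finset ι) (s : ι → ℝ)
    (κ : J → ℕ) (θ : J → ℝ) : Feas G e (∅ : Finset J) L s κ θ :=
  ⟨fun _ => ∅, fun _ _ => 0, fun _ _ => 0, by simp, by simp⟩

theorem feas_union {J ι : Type} [DecidableEq J] [DecidableEq ι] {G : J → ι → ℝ → ℝ} {e : ι → ℝ}
    {A₁ A₂ : Finset J} {L₁ L₂ L : Finset ι} {s : ι → ℝ} {κ : J → ℕ} {θ : J → ℝ}
    (h1 : Feas G e A₁ L₁ s κ θ) (h2 : Feas G e A₂ L₂ s κ θ)
    (hL : Disjoint L₁ L₂) (hL1 : L₁ ⊆ L) (hL2 : L₂ ⊆ L) : Feas G e (A₁ ∪ A₂) L s κ θ := by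
  obtain ⟨S1, lo1, hi1, p1, q1⟩ := h1
  obtain ⟨S2, lo2, hi2, p2, q2⟩ := h2
  refine ⟨fun j => if j ∈ A₁ then S1 j else S2 j, fun j => if j ∈ A₁ then lo1 j else lo2 j,
    fun j => if j ∈ A₁ then hi1 j else hi2 j, ?_, ?_⟩
  · intro j hj
    by_cases h : j ∈ A₁
    · simp only [if_pos h]
      obtain ⟨a, b, c, d⟩ := p1 j h
      exact ⟨a.trans hL1, b, c, d⟩
    · simp only [if_neg h]
      obtain ⟨a, b, c, d⟩ := p2 j ((Finset.mem_union.1 hj).resolve_left h)
      exact ⟨a.trans hL2, b, c, d⟩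
  · intro j hj j' hj' hne l
    by_cases h : j ∈ A₁ <;> by_cases h' : j' ∈ A₁
    · simp only [if_pos h, if_pos h']
      exact q1 j h j' h' hne l
    · simp only [if_pos h, if_neg h']
      intro a b
      exact absurd ((p2 j' ((Finset.mem_union.1 hj').resolve_left h')).1 b)
        (Finset.disjoint_left.1 hL ((p1 j h).1 a))
    · simp only [if_neg h, if_pos h']
      intro a b
      exact absurd ((p2 j ((Finset.mem_union.1 hj).resolve_left h)).1 a)
        (Finset.disjoint_left.1 hL ((p1 j' h').1 b))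
    · simp only [if_neg h, if_neg h']
      exact q2 j ((Finset.mem_union.1 hj).resolve_left h) j'
        ((Finset.mem_union.1 hj').resolve_left h') hne l

/-- One agent takes the whole islands of `Y` and the part of island `l` up to `x`. -/
theorem feas_prefix {J ι : Type} [DecidableEq J] [DecidableEq ι] {G : J → ι → ℝ → ℝ} {e : ι → ℝ}
    {A : Finset J} {L : Finset ι} {s : ι → ℝ} {κ : J → ℕ} {θ : J → ℝ} (i : J) (hi : i ∉ A)
    (Y : Finset ι) (hY : Y ⊆ L) (l : ι) (hl : l ∈ L) (hlY : l ∉ Y) (x : ℝ) (hx1 : s l ≤ x)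
    (hx2 : x ≤ e l) (hs : ∀ u, s u ≤ e u) (hcard : Y.card + 1 ≤ κ i)
    (hval : θ i ≤ ∑ u ∈ Y, wt G e s i u + (G i l x - G i l (s l)))
    (hrest : Feas G e A (L \ Y) (Function.update s l x) κ θ) :
    Feas G e (insert i A) L s κ θ := by
  obtain ⟨S, lo, hi', p, q⟩ := hrest
  have hAi : ∀ j ∈ A, j ≠ i := fun j hj h => hi (h ▸ hj)
  refine ⟨fun j => if j = i then insert l Y else S j, fun j => if j = i then s else lo j,
    fun j => if j = i then Function.update e l x else hi' j, ?_, ?_⟩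
  · intro j hj
    by_cases h : j = i
    · subst h
      simp only [if_true]
      refine ⟨Finset.insert_subset hl hY, ?_, ?_, ?_⟩
      · rw [Finset.card_insert_of_notMem hlY]; exact hcard
      · intro u hu
        by_cases hul : u = l
        · subst hul
          simp only [Function.update_self]
          exact ⟨le_refl _, hx1, hx2⟩
        · simp only [Function.update_of_ne hul]
          exact ⟨le_refl _, hs u, le_refl _⟩
      · rw [Finset.sum_insert hlY]
        simp only [Function.update_self]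
        have : ∑ u ∈ Y, (G j u (Function.update e l x u) - G j u (s u)) = ∑ u ∈ Y, wt G e s j u := by
          apply Finset.sum_congr rfl
          intro u hu
          have hul : u ≠ l := fun h => hlY (h ▸ hu)
          simp only [Function.update_of_ne hul, wt]
        rw [this]
        linarith
    · have hjA : j ∈ A := (Finset.mem_insert.1 hj).resolve_left h
      simp only [if_neg h]
      obtain ⟨a, b, c, d⟩ := p j hjA
      refine ⟨a.trans Finset.sdiff_subset, b, ?_, d⟩
      intro u hu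
      obtain ⟨c1, c2, c3⟩ := c u hu
      refine ⟨?_, c2, c3⟩
      by_cases hul : u = l
      · subst hul
        rw [Function.update_self] at c1
        exact hx1.trans c1
      · rwa [Function.update_of_ne hul] at c1
  · -- disjointness
    have key : ∀ j ∈ A, ∀ u, u ∈ insert l Y → u ∈ S j → (Function.update e l x) u ≤ lo j u := by
      intro j hj u hu hu'
      obtain ⟨a, b, c, d⟩ := p j hj
      have hu2 := a hu'
      rw [Finset.mem_sdiff] at hu2
      have hul : u = l := (Finset.mem_insert.1 hu).resolve_right hu2.2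
      subst hul
      have := (c u hu').1
      rw [Function.update_self] at this ⊢
      exact this
    intro j hj j' hj' hne u
    by_cases h : j = i
    · have h' : j' ≠ i := fun h2 => hne (h.trans h2.symm)
      have hjA' : j' ∈ A := (Finset.mem_insert.1 hj').resolve_left h'
      simp only [if_pos h, if_neg h']
      intro hu hu'
      exact Or.inl (key j' hjA' u hu hu')
    · have hjA : j ∈ A := (Finset.mem_insert.1 hj).resolve_left h
      by_cases h' : j' = i
      · simp only [if_neg h, if_pos h']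
        intro hu hu'
        exact Or.inr (key j hjA u hu' hu)
      · have hjA' : j' ∈ A := (Finset.mem_insert.1 hj').resolve_left h'
        simp only [if_neg h, if_neg h']
        exact q j hjA j' hjA' hne u

/-- The agents `f t`, `t ∈ T`, take whole blocks `P t` of islands. -/
theorem feas_blocks {J ι τ : Type} [DecidableEq J] [DecidableEq ι] [DecidableEq τ]
    {G : J → ι → ℝ → ℝ} {e : ι → ℝ} {s : ι → ℝ} {κ : J → ℕ} {θ : J → ℝ} (T : Finset τ)
    (P : τ → Finset ι) (f : τ → J)
    (hP : ∀ t ∈ T, ∀ t' ∈ T, t ≠ t' → Disjoint (P t) (P t'))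
    (hf : ∀ t ∈ T, ∀ t' ∈ T, f t = f t' → t = t') (hs : ∀ u, s u ≤ e u)
    (hcard : ∀ t ∈ T, (P t).card ≤ κ (f t))
    (hval : ∀ t ∈ T, θ (f t) ≤ ∑ u ∈ P t, wt G e s (f t) u) :
    Feas G e (T.image f) (T.biUnion P) s κ θ := by
  classical
  let g : J → Finset ι := fun j => (T.filter (fun t => f t = j)).biUnion P
  have hg : ∀ t ∈ T, g (f t) = P t := by
    intro t ht
    have : T.filter (fun t' => f t' = f t) = {t} := by
      ext t'
      simp only [Finset.mem_filter, Finset.mem_singleton]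
      constructor
      · rintro ⟨h1, h2⟩; exact hf t' h1 t ht h2
      · rintro rfl; exact ⟨ht, rfl⟩
    simp only [g, this, Finset.singleton_biUnion]
  refine ⟨g, fun _ => s, fun _ => e, ?_, ?_⟩
  · intro j hj
    obtain ⟨t, ht, rfl⟩ := Finset.mem_image.1 hj
    rw [hg t ht]
    refine ⟨Finset.subset_biUnion_of_mem P ht, hcard t ht, ?_, hval t ht⟩
    intro u _
    exact ⟨le_refl _, hs u, le_refl _⟩
  · intro j hj j' hj' hne u hu hu'
    obtain ⟨t, ht, rfl⟩ := Finset.mem_image.1 hj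
    obtain ⟨t', ht', rfl⟩ := Finset.mem_image.1 hj'
    rw [hg t ht] at hu
    rw [hg t' ht'] at hu'
    have hne' : t ≠ t' := fun h => hne (by rw [h])
    exact absurd hu' (Finset.disjoint_left.1 (hP t ht t' ht' hne') hu)

/-- Keeping only the best intervals. -/
theorem feas_shrink {J ι : Type} [DecidableEq J] [DecidableEq ι] {G : J → ι → ℝ → ℝ} {e : ι → ℝ}
    {A : Finset J} {L : Finset ι} {s : ι → ℝ} {κ κ' : J → ℕ} {θ θ' : J → ℝ}
    (hmono : ∀ j l, Monotone (G j l)) (h : Feas G e A L s κ' θ')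
    (hcomp : ∀ j ∈ A, (κ' j ≤ κ j ∧ θ j ≤ θ' j) ∨
      (0 < κ' j ∧ κ j ≤ κ' j ∧ (κ' j : ℝ) * θ j ≤ κ j * θ' j)) :
    Feas G e A L s κ θ := by
  classical
  obtain ⟨S, lo, hi, p, q⟩ := h
  have hex : ∀ j ∈ A, ∃ T ⊆ S j, T.card ≤ κ j ∧ θ j ≤ ∑ l ∈ T, (G j l (hi j l) - G j l (lo j l)) := by
    intro j hj
    obtain ⟨a, b, c, d⟩ := p j hj
    have hnn : ∀ T ⊆ S j, 0 ≤ ∑ l ∈ T, (G j l (hi j l) - G j l (lo j l)) := by
      intro T hT
      apply Finset.sum_nonneg
      intro l hl
      have := hmono j l (c l (hT hl)).2.1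
      linarith
    rcases hcomp j hj with ⟨h1, h2⟩ | ⟨h0, h1, h2⟩
    · exact ⟨S j, Finset.Subset.refl _, b.trans h1, h2.trans d⟩
    · have hk' : (0 : ℝ) < κ' j := by exact_mod_cast h0
      by_cases hle : (S j).card ≤ κ j
      · refine ⟨S j, Finset.Subset.refl _, hle, ?_⟩
        have h4 : (κ' j : ℝ) * θ j ≤ κ' j * ∑ l ∈ S j, (G j l (hi j l) - G j l (lo j l)) := by
          calc (κ' j : ℝ) * θ j ≤ κ j * θ' j := h2
            _ ≤ κ j * ∑ l ∈ S j, (G j l (hi j l) - G j l (lo j l)) :=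
                mul_le_mul_of_nonneg_left d (Nat.cast_nonneg _)
            _ ≤ _ := mul_le_mul_of_nonneg_right (by exact_mod_cast h1) (hnn _ (Finset.Subset.refl _))
        exact le_of_mul_le_mul_left h4 hk'
      · push Not at hle
        obtain ⟨T, hT, hTc, hTs⟩ := exists_subset_share
          (fun l => G j l (hi j l) - G j l (lo j l)) (κ j) ((S j).card - κ j) (S j) (by omega)
        refine ⟨T, hT, hTc.le, ?_⟩
        have h3 : ((S j).card : ℝ) * ∑ l ∈ T, (G j l (hi j l) - G j l (lo j l)) ≤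
            κ' j * ∑ l ∈ T, (G j l (hi j l) - G j l (lo j l)) :=
          mul_le_mul_of_nonneg_right (by exact_mod_cast b) (hnn T hT)
        have h4 : (κ' j : ℝ) * θ j ≤ κ' j * ∑ l ∈ T, (G j l (hi j l) - G j l (lo j l)) := by
          calc (κ' j : ℝ) * θ j ≤ κ j * θ' j := h2
            _ ≤ κ j * ∑ l ∈ S j, (G j l (hi j l) - G j l (lo j l)) :=
                mul_le_mul_of_nonneg_left d (Nat.cast_nonneg _)
            _ ≤ _ := hTs.trans h3
        exact le_of_mul_le_mul_left h4 hk'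
  choose! T hT1 hT2 hT3 using hex
  refine ⟨T, lo, hi, ?_, ?_⟩
  · intro j hj
    obtain ⟨a, b, c, d⟩ := p j hj
    exact ⟨(hT1 j hj).trans a, hT2 j hj, fun l hl => c l (hT1 j hj hl), hT3 j hj⟩
  · intro j hj j' hj' hne l hl hl'
    exact q j hj j' hj' hne l (hT1 j hj hl) (hT1 j' hj' hl')

end Pool.Agent.Helper78.MultiCake
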