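import Pool.Agent.Helper78.MultiCake.Core

set_option autoImplicit false

namespace Pool.Agent.Helper78.MultiCake

open Finset

/-- Removing dummy islands. -/
theorem feas_unpad {J ι : Type} [DecidableEq J] [DecidableEq ι] {d : ℕ} {G : J → ι → ℝ → ℝ}
    {e : ι → ℝ} {A : Finset J} {L : Finset ι} {s : ι → ℝ} {κ : J → ℕ} {θ : J → ℝ}
    (h : Feas (fun j => Sum.elim (G j) (fun (_ : Fin d) (_ : ℝ) => (0 : ℝ)))
      (Sum.elim e (fun _ => 0)) A (L.disjSum (Finset.univ : Finset (Fin d)))
      (Sum.elim s (fun _ => 0)) κ θ) : Feas G e A L s κ θ := by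
  obtain ⟨S, lo, hi, p, q⟩ := h
  refine ⟨fun j => (S j).toLeft, fun j l => lo j (Sum.inl l), fun j l => hi j (Sum.inl l), ?_, ?_⟩
  · intro j hj
    obtain ⟨a, b, c, d'⟩ := p j hj
    refine ⟨?_, (Finset.card_toLeft_le).trans b, ?_, ?_⟩
    · intro l hl
      have := a (Finset.mem_toLeft.1 hl)
      exact Finset.inl_mem_disjSum.1 this
    · intro l hl
      exact c (Sum.inl l) (Finset.mem_toLeft.1 hl)
    · refine d'.trans (le_of_eq ?_)
      conv_lhs => rw [← Finset.toLeft_disjSum_toRight (u := S j)]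
      rw [Finset.sum_disjSum]
      simp
  · intro j hj j' hj' hne l hl hl'
    exact q j hj j' hj' hne (Sum.inl l) (Finset.mem_toLeft.1 hl) (Finset.mem_toLeft.1 hl')

theorem Q_step {J : Type} [DecidableEq J] (n : ℕ) (IH : ∀ n' < n, Q J n') : Q J n := by
  classical
  intro ι _ G e s A L K κ θ hmono hcont hs hA hθ hK hlow hup htype
  rcases Nat.eq_zero_or_pos n with hn0 | hnpos
  · subst hn0
    rw [Finset.card_eq_zero] at hA
    subst hA
    exact feas_empty _ _ _ _ _ _
  obtain ⟨k, rfl⟩ : ∃ k, K = k + 1 := ⟨K - 1, by omega⟩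
  obtain ⟨c, hc⟩ : ∃ c, L.card + n = n * (k + 1) + 1 + c := ⟨L.card + n - (n * (k + 1) + 1), by omega⟩
  have hcn : c ≤ n := by
    have : n * (k + 1 + 1) = n * (k + 1) + n := by ring
    omega
  have hV0 : ∀ j, 0 ≤ ∑ l ∈ L, wt G e s j l :=
    fun j => Finset.sum_nonneg (fun l _ => wt_nonneg hmono hs j l)
  have hk0 : (0 : ℝ) ≤ k := Nat.cast_nonneg k
  have hn0 : (0 : ℝ) < n := by exact_mod_cast hnpos
  have hcR : (L.card : ℝ) + n = n * (k + 1) + 1 + c := by exact_mod_cast hc
  have hAne : A.Nonempty := by rw [← Finset.card_pos]; omega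
  obtain ⟨a0, ha0⟩ := hAne
  by_cases hcn' : c + 1 ≤ n
  · by_cases hex : ∃ i ∈ A, ((L.card : ℝ) + n - 1) * θ i ≤ ((k : ℝ) + 1) * ∑ l ∈ L, wt G e s i l
    · refine core n IH ι G e s A L k c κ θ hmono hcont hs hA hθ hc hcn' ?_ hex
      intro j hj
      rcases htype j hj with ⟨h1, h2⟩ | ⟨h1, h2⟩
      · left
        refine ⟨h1, ?_⟩
        push_cast at h2
        exact h2
      · right
        exact ⟨h1, h2⟩
    · -- everybody wants `1/n` with `K+1` intervals: pad the cake
      push Not at hex
      have hB : ∀ j ∈ A, k + 1 + 1 ≤ κ j ∧ (n : ℝ) * θ j ≤ ∑ l ∈ L, wt G e s j l := by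
        intro j hj
        rcases htype j hj with ⟨_, h2⟩ | h
        · have := hex j hj
          push_cast at h2
          linarith
        · exact h
      apply feas_unpad (d := n - c)
      have hwt' : ∀ j, ∑ l ∈ L.disjSum (Finset.univ : Finset (Fin (n - c))),
          wt (fun j => Sum.elim (G j) (fun (_ : Fin (n - c)) (_ : ℝ) => (0 : ℝ)))
            (Sum.elim e (fun _ => 0)) (Sum.elim s (fun _ => 0)) j l = ∑ l ∈ L, wt G e s j l := by
        intro j
        rw [Finset.sum_disjSum]
        simp [wt]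
      have hcard' : (L.disjSum (Finset.univ : Finset (Fin (n - c)))).card = L.card + (n - c) := by
        rw [Finset.card_disjSum, Finset.card_univ, Fintype.card_fin]
      have hcardR : ((L.card + (n - c) : ℕ) : ℝ) = L.card + n - c := by
        rw [Nat.cast_add, Nat.cast_sub hcn]; ring
      have hcond : ∀ j ∈ A, ((((L.disjSum (Finset.univ : Finset (Fin (n - c)))).card : ℝ)) + n - 1) *
          θ j ≤ (((k + 1 : ℕ) : ℝ) + 1) * ∑ l ∈ L.disjSum (Finset.univ : Finset (Fin (n - c))),
          wt (fun j => Sum.elim (G j) (fun (_ : Fin (n - c)) (_ : ℝ) => (0 : ℝ)))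
            (Sum.elim e (fun _ => 0)) (Sum.elim s (fun _ => 0)) j l := by
        intro j hj
        rw [hwt' j, hcard', hcardR]
        have h2 := (hB j hj).2
        have h3 : (L.card : ℝ) + n - c + n - 1 = ((k : ℝ) + 1 + 1) * n := by linarith
        rw [h3]
        push_cast
        have h4 : ((k : ℝ) + 1 + 1) * ((n : ℝ) * θ j) ≤
            ((k : ℝ) + 1 + 1) * ∑ l ∈ L, wt G e s j l :=
          mul_le_mul_of_nonneg_left h2 (by linarith)
        linarith
      refine core n IH (ι ⊕ Fin (n - c)) _ _ _ A _ (k + 1) 0 κ θ ?_ ?_ ?_ hA hθ ?_ (by omega) ?_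
        ⟨a0, ha0, hcond a0 ha0⟩
      · intro j l
        rcases l with l | l
        · exact hmono j l
        · exact monotone_const
      · intro j l
        rcases l with l | l
        · exact hcont j l
        · exact continuous_const
      · intro l
        rcases l with l | l
        · exact hs l
        · exact le_refl _
      · rw [hcard']
        have : n * (k + 1 + 1) = n * (k + 1) + n := by ring
        omega
      · intro j hj
        left
        exact ⟨(hB j hj).1, hcond j hj⟩
  · -- `c = n`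
    have hceq : c = n := by omega
    subst hceq
    let B : J → Prop := fun j => k + 1 + 1 ≤ κ j ∧ (c : ℝ) * θ j ≤ ∑ l ∈ L, wt G e s j l
    let θ' : J → ℝ := fun j => if B j then θ j else ((k : ℝ) + 1 + 1) / ((k : ℝ) + 1) * θ j
    have hθ' : ∀ j ∈ A, 0 ≤ θ' j := by
      intro j hj
      simp only [θ']
      split_ifs
      · exact hθ j hj
      · exact mul_nonneg (by positivity) (hθ j hj)
    have hcond : ∀ j ∈ A, ((L.card : ℝ) + c - 1) * θ' j ≤
        (((k + 1 : ℕ) : ℝ) + 1) * ∑ l ∈ L, wt G e s j l := by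
      intro j hj
      have h3 : (L.card : ℝ) + c - 1 = ((k : ℝ) + 1 + 1) * c := by linarith
      push_cast
      rw [h3]
      by_cases hBj : B j
      · simp only [θ', if_pos hBj]
        have h4 : ((k : ℝ) + 1 + 1) * ((c : ℝ) * θ j) ≤
            ((k : ℝ) + 1 + 1) * ∑ l ∈ L, wt G e s j l :=
          mul_le_mul_of_nonneg_left hBj.2 (by linarith)
        linarith
      · simp only [θ', if_neg hBj]
        rcases htype j hj with ⟨_, h2⟩ | h
        · rw [h3] at h2
          push_cast at h2
          have hk1 : (0 : ℝ) < (k : ℝ) + 1 := by linarith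
          have h5 : ((k : ℝ) + 1 + 1) * (c : ℝ) * (((k : ℝ) + 1 + 1) / ((k : ℝ) + 1) * θ j) =
              (((k : ℝ) + 1 + 1) / ((k : ℝ) + 1)) * (((k : ℝ) + 1 + 1) * c * θ j) := by ring
          rw [h5]
          calc (((k : ℝ) + 1 + 1) / ((k : ℝ) + 1)) * (((k : ℝ) + 1 + 1) * c * θ j)
              ≤ (((k : ℝ) + 1 + 1) / ((k : ℝ) + 1)) * (((k : ℝ) + 1) * ∑ l ∈ L, wt G e s j l) :=
                mul_le_mul_of_nonneg_left h2 (by positivity)
            _ = ((k : ℝ) + 1 + 1) * ∑ l ∈ L, wt G e s j l := by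
                field_simp
        · exact absurd h hBj
    have hfeas : Feas G e A L s (fun _ => k + 1 + 1) θ' := by
      refine core c IH ι G e s A L (k + 1) 0 (fun _ => k + 1 + 1) θ' hmono hcont hs hA hθ' ?_
        (by omega) ?_ ⟨a0, ha0, hcond a0 ha0⟩
      · have : c * (k + 1 + 1) = c * (k + 1) + c := by ring
        omega
      · intro j hj
        left
        exact ⟨le_refl _, hcond j hj⟩
    refine feas_shrink hmono hfeas ?_
    intro j hj
    have hk1 : (0 : ℝ) < (k : ℝ) + 1 := by linarith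
    by_cases hBj : B j
    · left
      simp only [θ', if_pos hBj]
      exact ⟨hBj.1, le_refl _⟩
    · by_cases hκj : k + 1 + 1 ≤ κ j
      · left
        refine ⟨hκj, ?_⟩
        simp only [θ', if_neg hBj]
        have h1 : (1 : ℝ) ≤ ((k : ℝ) + 1 + 1) / ((k : ℝ) + 1) := by
          rw [le_div_iff₀ hk1]; linarith
        calc θ j = 1 * θ j := (one_mul _).symm
          _ ≤ _ := mul_le_mul_of_nonneg_right h1 (hθ j hj)
      · right
        have hκj' : κ j = k + 1 := by
          rcases htype j hj with ⟨h1, _⟩ | ⟨h1, _⟩ <;> omega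
        refine ⟨by omega, by omega, ?_⟩
        simp only [θ', if_neg hBj]
        rw [hκj']
        push_cast
        apply le_of_eq
        field_simp

theorem Q_all {J : Type} [DecidableEq J] (n : ℕ) : Q J n := by
  induction n using Nat.strong_induction_on with
  | _ n ih => exact Q_step n ih

end Pool.Agent.Helper78.MultiCake
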